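import Pool.Agent.Helper42.AV.RD
import Pool.Agent.Helper2.AV.MB
import Pool.Agent.Helper14.AV.DAa
import Pool.Agent.Helper55.AV.DAb

/-!
Block RD, second part: the components of the Lie algebra are reductive.
-/

set_option linter.unusedSimpArgs false
set_option linter.unusedSectionVars false
set_option linter.unusedVariables false

open Module

namespace AV

open MTP UN

section RD2
variable {K : Type*} [Field K] [IsAlgClosed K] [CharZero K] {V : Type*} [AddCommGroup V]
  [Module K V] [FiniteDimensional K V]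
  {ω : LinearMap.BilinForm K V} {G : Set (Module.End K V)}
  {T : Set (Module.End K V ≃+* Module.End K V)} {p0 ε : Module.End K V}

/-- The component of the Lie algebra acts irreducibly. -/
theorem MStr.irr_lb (D : MStr ω G T p0) (hε : Bl (AA G T p0) ε) {W : Submodule K V}
    (hW : Irr (AA G T p0 : Set (Module.End K V)) W) (hWε : InB ε W) (U : Submodule K W)
    (hU : ∀ x ∈ Lb G T p0 ε, ∀ w ∈ U, Rw W x w ∈ U) : U = ⊥ ∨ U = ⊤ := by
  have hle : U.map W.subtype ≤ W := by
    rintro _ ⟨w, -, rfl⟩; exact w.2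
  have hst : Stab (AA G T p0 : Set (Module.End K V)) (U.map W.subtype) := by
    apply D.ml_stab hε
    · intro w hw; exact hWε w (hle hw)
    · rintro x hx _ ⟨w, hw, rfl⟩
      have hxε : x * ε ∈ Lb G T p0 ε := ⟨x, hx, rfl⟩
      have hs : ∀ v ∈ W, (x * ε) v ∈ W := by
        intro v hv
        rw [Module.End.mul_apply, hWε v hv]
        exact hW.st x (D.ml_mem hx) v hv
      refine ⟨Rw W (x * ε) w, hU _ hxε w hw, ?_⟩
      change ((Rw W (x * ε) w : W) : V) = x w
      rw [Rw_coe hs, Module.End.mul_apply, hWε w w.2]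
  rcases hW.irr _ hle hst with h | h
  · left
    rw [eq_bot_iff]
    intro w hw
    have h2 : (w : V) ∈ U.map W.subtype := ⟨w, hw, rfl⟩
    rw [h, Submodule.mem_bot] at h2
    exact Subtype.ext h2
  · right
    rw [eq_top_iff]
    intro w _
    have h2 : (w : V) ∈ U.map W.subtype := by rw [h]; exact w.2
    obtain ⟨w', hw', hww⟩ := h2
    have : w' = w := Subtype.ext hww
    rw [← this]; exact hw'

lemma Irr.nontrivial {A : Set (Module.End K V)} {W : Submodule K V} (hW : Irr A W) :
    Nontrivial W := by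
  obtain ⟨v, hv, hv0⟩ := Submodule.exists_mem_ne_zero_of_ne_bot hW.ne
  exact ⟨⟨⟨v, hv⟩, 0, fun h => hv0 (congrArg Subtype.val h)⟩⟩

/-- The component of the Lie algebra is reductive. -/
theorem MStr.red_lb (D : MStr ω G T p0) (hε : Bl (AA G T p0) ε) : Red (Lb G T p0 ε) := by
  obtain ⟨W, hW, hWε⟩ := hε.exists_irr
  have := hW.nontrivial
  exact Rs.red (D.ssA.rs hε hW hWε) (D.lb_le hε) (fun x hx y hy => D.lb_br hε hx hy)
    (fun U hU => D.irr_lb hε hW hWε U hU) (fun x hx => D.lb_tr hε hx)

/-- The component of a quadratic unipotent element. -/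
theorem MStr.quad_lb (D : MStr ω G T p0) (hε : Bl (AA G T p0) ε) {u : Module.End K V}
    (hu : u ∈ G) (hN : (u - 1) * (u - 1) = 0) : (u - 1) * ε ∈ Lb G T p0 ε := by
  obtain ⟨W, hW, hWε⟩ := hε.exists_irr
  have := hW.nontrivial
  obtain ⟨u', hu', huu, huu'⟩ := D.inv u hu
  have hNA : u - 1 ∈ AA G T p0 := (AA G T p0).sub_mem (D.g_mem hu) (AA G T p0).one_mem
  have hc := hε.cen _ hNA
  set N := u - 1 with hNdef
  have huN : u = 1 + N := by rw [hNdef]; abel
  have huN' : u' = 1 - N := by
    have e2 : u * (1 - N) = 1 := by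
      have e3 : (1 + N) * (1 - N) = 1 - N * N := by
        simp only [mul_sub, add_mul, mul_one, one_mul]; abel
      rw [huN, e3, hN, sub_zero]
    calc u' = u' * (u * (1 - N)) := by rw [e2, mul_one]
      _ = _ := by rw [← mul_assoc, huu', one_mul]
  have hNB : N * ε ∈ Ae (AA G T p0) ε :=
    ⟨(AA G T p0).mul_mem hNA hε.mem, by rw [mul_assoc, hε.idem]⟩
  apply Rs.mem_of_normalize (D.ssA.rs hε hW hWε) (D.lb_le hε)
    (fun x hx y hy => D.lb_br hε hx hy) (fun U hU => D.irr_lb hε hW hWε U hU)
    (fun x hx => D.lb_tr hε hx) hNB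
  · have hnil : IsNilpotent (N * ε) := by
      refine ⟨2, ?_⟩
      calc (N * ε) ^ 2 = N * (ε * N) * ε := by noncomm_ring
        _ = N * N * (ε * ε) := by rw [hc]; noncomm_ring
        _ = 0 := by rw [hN, zero_mul]
    exact (LinearMap.isNilpotent_trace_of_isNilpotent hnil).eq_zero
  · intro x hx
    obtain ⟨hxA, hxε⟩ := D.lb_le hε hx
    have hεx : ε * x = x := by rw [hε.cen x hxA, hxε]
    have e1 : N * ε * x = N * x := by rw [mul_assoc, hεx]
    have e2 : x * (N * ε) = x * N := by rw [← hc, ← mul_assoc, hxε]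
    rw [e1, e2]
    have h1 := D.lb_conj hε hu hu' huu huu' hx
    have h2 := D.lb_conj hε hu' hu huu' huu hx
    rw [huN', huN] at h1 h2
    have h3 := (Lb G T p0 ε).smul_mem (2 : K)⁻¹ ((Lb G T p0 ε).sub_mem h1 h2)
    have e : (1 + N) * x * (1 - N) - (1 - N) * x * (1 + N) =
        (2 : K) • (N * x - x * N) := by
      have : (1 + N) * x * (1 - N) - (1 - N) * x * (1 + N) =
        (N * x - x * N) + (N * x - x * N) := by
        simp only [mul_sub, sub_mul, mul_add, add_mul, mul_one, one_mul, mul_assoc]; abel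
      rw [this, two_smul]
    rw [e, smul_smul, inv_mul_cancel₀ two_ne_zero, one_smul] at h3
    exact h3

end RD2

end AV
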