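import Pool.Agent.Helper2.AV.ADefs
import Pool.Agent.Helper93.SR.Strong

/-!
Block RD: a Lie algebra of operators of trace zero inside a set of operators acting faithfully and
irreducibly by restriction is reductive in the sense of `Red`.
-/

set_option linter.unusedSimpArgs false
set_option linter.unusedSectionVars false
set_option linter.unusedVariables false

open Module

attribute [local instance 100] LieRing.ofAssociativeRing

namespace AV

open MTP UN

namespace RD

variable {K : Type*} [Field K] {V : Type*} [AddCommGroup V] [Module K V] [FiniteDimensional K V]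

/-- Schur's lemma. -/
lemma schur [IsAlgClosed K] [Nontrivial V] {S : Set (Module.End K V)}
    (hirr : ∀ U : Submodule K V, (∀ x ∈ S, ∀ w ∈ U, x w ∈ U) → U = ⊥ ∨ U = ⊤)
    {x : Module.End K V} (hx : ∀ y ∈ S, x * y = y * x) : ∃ c : K, x = c • 1 := by
  obtain ⟨c, hc⟩ := Module.End.exists_eigenvalue x
  refine ⟨c, ?_⟩
  have htop : Module.End.eigenspace x c = ⊤ := by
    rcases hirr (Module.End.eigenspace x c) (by
      intro y hy w hw
      rw [Module.End.mem_eigenspace_iff] at hw ⊢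
      have := LinearMap.congr_fun (hx y hy) w
      simp only [Module.End.mul_apply] at this
      rw [this, hw, map_smul]) with h | h
    · exact absurd h hc
    · exact h
  ext v
  have : v ∈ Module.End.eigenspace x c := by rw [htop]; trivial
  rw [Module.End.mem_eigenspace_iff] at this
  rw [this]; rfl

/-- Complements of ideals, from nondegeneracy. -/
lemma orth_comm_of [CharZero K] {L I : Submodule K (Module.End K V)}
    (hbr : ∀ x ∈ L, ∀ y ∈ L, x * y - y * x ∈ L)
    (hnd : ∀ I, IsId L I → ∀ x ∈ I, x ∈ orth L I → x = 0) (hI : IsId L I)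
    {x y : Module.End K V} (hx : x ∈ I) (hy : y ∈ orth L I) : x * y = y * x := by
  rw [← sub_eq_zero]
  apply hnd I hI
  · have h1 := hI.2 y hy.1 x hx
    have h2 := I.neg_mem h1
    rwa [neg_sub] at h2
  · exact (orth_isId hbr hI).2 x (hI.1 hx) y hy

lemma sup_orth_of [CharZero K] {L I : Submodule K (Module.End K V)}
    (hnd : ∀ I, IsId L I → ∀ x ∈ I, x ∈ orth L I → x = 0) (hI : IsId L I)
    {z : Module.End K V} (hz : z ∈ L) : ∃ x ∈ I, z - x ∈ orth L I := by
  let Φ : I →ₗ[K] Module.Dual K I :=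
    { toFun := fun a =>
        { toFun := fun b => LinearMap.trace K V ((a : Module.End K V) * (b : Module.End K V))
          map_add' := by intro b c; simp [mul_add]
          map_smul' := by intro c b; simp }
      map_add' := by intro a b; ext c; simp [add_mul]
      map_smul' := by intro c a; ext b; simp }
  have hinj : Function.Injective Φ := by
    rw [← LinearMap.ker_eq_bot, LinearMap.ker_eq_bot']
    intro a ha
    apply Subtype.ext
    apply hnd I hI _ a.2
    refine ⟨hI.1 a.2, fun y hy => ?_⟩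
    have := congrArg (fun f : Module.Dual K I => f ⟨y, hy⟩) ha
    exact this
  have hsurj : Function.Surjective Φ :=
    (LinearMap.injective_iff_surjective_of_finrank_eq_finrank
      (Subspace.dual_finrank_eq (K := K) (V := I)).symm).mp hinj
  let F : Module.Dual K I :=
    { toFun := fun b => LinearMap.trace K V (z * (b : Module.End K V))
      map_add' := by intro b c; simp [mul_add]
      map_smul' := by intro c b; simp }
  obtain ⟨a, ha⟩ := hsurj F
  refine ⟨a, a.2, L.sub_mem hz (hI.1 a.2), fun y hy => ?_⟩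
  have := congrArg (fun f : Module.Dual K I => f ⟨y, hy⟩) ha
  have h1 : LinearMap.trace K V ((a : Module.End K V) * y) = LinearMap.trace K V (z * y) := this
  rw [sub_mul, map_sub, h1, sub_self]

end RD

section RD
variable {K : Type*} [Field K] [IsAlgClosed K] [CharZero K] {V : Type*} [AddCommGroup V]
  [Module K V] [FiniteDimensional K V] {W : Type*} [AddCommGroup W] [Module K W]
  [FiniteDimensional K W] [Nontrivial W] {B L : Submodule K (Module.End K V)}
  {ρ : Module.End K V →ₗ[K] Module.End K W}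

lemma RD.trace_rho (R : Rs B ρ) {x : Module.End K V} (hx : x ∈ B)
    (h : LinearMap.trace K V x = 0) : LinearMap.trace K W (ρ x) = 0 := by
  obtain ⟨k, hk, hk1, -⟩ := R.mult
  have h1 := hk1 x hx
  rw [h] at h1
  exact (mul_eq_zero.mp h1.symm).resolve_left (Nat.cast_ne_zero.mpr hk.ne')

/-- An element of trace zero commuting with `L`. -/
lemma RD.comm_zero (R : Rs B ρ) (hLB : L ≤ B)
    (hirr : ∀ U : Submodule K W, (∀ x ∈ L, ∀ w ∈ U, ρ x w ∈ U) → U = ⊥ ∨ U = ⊤)
    {x : Module.End K V} (hx : x ∈ B) (htr : LinearMap.trace K V x = 0)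
    (h : ∀ y ∈ L, x * y = y * x) : x = 0 := by
  obtain ⟨c, hc⟩ := RD.schur (S := ρ '' (L : Set (Module.End K V)))
    (fun U hU => hirr U fun y hy w hw => hU _ ⟨y, hy, rfl⟩ w hw)
    (x := ρ x) (by
      rintro _ ⟨y, hy, rfl⟩
      rw [← R.hom x hx y (hLB hy), ← R.hom y (hLB hy) x hx, h y hy])
  have h1 := RD.trace_rho R hx htr
  rw [hc, map_smul, LinearMap.trace_one, smul_eq_mul] at h1
  have hn : (finrank K W : K) ≠ 0 := by
    rw [Nat.cast_ne_zero]; exact Module.finrank_pos.ne'
  have hc0 := (mul_eq_zero.mp h1).resolve_right hn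
  apply R.inj x hx
  rw [hc, hc0, zero_smul]

lemma RD.map_br (R : Rs B ρ) (hLB : L ≤ B) (hbr : ∀ x ∈ L, ∀ y ∈ L, x * y - y * x ∈ L) :
    ∀ x ∈ L.map ρ, ∀ y ∈ L.map ρ, x * y - y * x ∈ L.map ρ := by
  rintro _ ⟨x, hx, rfl⟩ _ ⟨y, hy, rfl⟩
  refine ⟨x * y - y * x, hbr x hx y hy, ?_⟩
  rw [map_sub, R.hom x (hLB hx) y (hLB hy), R.hom y (hLB hy) x (hLB hx)]

/-- Nondegeneracy of the trace form on ideals. -/
lemma RD.nd (R : Rs B ρ) (hLB : L ≤ B) (hbr : ∀ x ∈ L, ∀ y ∈ L, x * y - y * x ∈ L)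
    (hirr : ∀ U : Submodule K W, (∀ x ∈ L, ∀ w ∈ U, ρ x w ∈ U) → U = ⊥ ∨ U = ⊤)
    (htr : ∀ x ∈ L, LinearMap.trace K V x = 0) (I : Submodule K (Module.End K V))
    (hI : IsId L I) (x : Module.End K V) (hx : x ∈ I) (hx' : x ∈ orth L I) : x = 0 := by
  have hO := orth_isId hbr hI
  let LW : LieSubalgebra K (Module.End K W) := toLie (L.map ρ) (RD.map_br R hLB hbr)
  let R' : LieIdeal K LW :=
    { carrier := {y | ∃ a ∈ I ⊓ orth L I, ρ a = (y : Module.End K W)}
      add_mem' := by
        rintro a b ⟨a', ha, ha'⟩ ⟨b', hb, hb'⟩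
        exact ⟨a' + b', Submodule.add_mem _ ha hb, by rw [map_add, ha', hb']; rfl⟩
      zero_mem' := ⟨0, Submodule.zero_mem _, by rw [map_zero]; rfl⟩
      smul_mem' := by
        rintro c a ⟨a', ha, ha'⟩
        exact ⟨c • a', Submodule.smul_mem _ _ ha, by rw [map_smul, ha']; rfl⟩
      lie_mem := by
        rintro ⟨_, x, hx, rfl⟩ m ⟨a, ⟨ha1, ha2⟩, ham⟩
        refine ⟨x * a - a * x, ⟨hI.2 x hx a ha1, hO.2 x hx a ha2⟩, ?_⟩
        rw [map_sub, R.hom x (hLB hx) a (hLB (hI.1 ha1)), R.hom a (hLB (hI.1 ha1)) x (hLB hx),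
          ham]
        rfl }
  obtain ⟨k, hk, hk1, -⟩ := R.mult
  have hbot := ideal_eq_bot LW (fun U hU => hirr U fun y hy w hw => hU _ ⟨y, hy, rfl⟩ w hw)
    (by
      rintro _ ⟨y, hy, rfl⟩
      exact RD.trace_rho R (hLB hy) (htr y hy)) R' (by
    rintro ⟨y, hy⟩ ⟨a, ⟨ha1, ha2⟩, ha⟩ ⟨y', hy'⟩ ⟨b, ⟨hb1, hb2⟩, hb⟩
    change ρ a = y at ha
    change ρ b = y' at hb
    change LinearMap.trace K W (y * y') = 0
    have hab := hk1 (a * b) (R.mul a (hLB (hI.1 ha1)) b (hLB (hI.1 hb1)))
    rw [ha2.2 b hb1, R.hom a (hLB (hI.1 ha1)) b (hLB (hI.1 hb1)), ha, hb] at hab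
    exact (mul_eq_zero.mp hab.symm).resolve_left (Nat.cast_ne_zero.mpr hk.ne'))
  have h1 : (⟨ρ x, x, hI.1 hx, rfl⟩ : LW) ∈ R' := ⟨x, ⟨hx, hx'⟩, rfl⟩
  rw [hbot, LieSubmodule.mem_bot] at h1
  have h2 : ρ x = 0 := congrArg Subtype.val h1
  exact R.inj x (hLB (hI.1 hx)) h2

/-- Adaptation of `UStr.red` (Helper2/UN/U2). -/
theorem Rs.red (R : Rs B ρ) (hLB : L ≤ B) (hbr : ∀ x ∈ L, ∀ y ∈ L, x * y - y * x ∈ L)
    (hirr : ∀ U : Submodule K W, (∀ x ∈ L, ∀ w ∈ U, ρ x w ∈ U) → U = ⊥ ∨ U = ⊤)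
    (htr : ∀ x ∈ L, LinearMap.trace K V x = 0) : Red L where
  br := hbr
  nd := RD.nd R hLB hbr hirr htr
  cen := fun x hx h => RD.comm_zero R hLB hirr (hLB hx) (htr x hx) h
  star := by
    intro I hI x hx y hy hxy
    have hO := orth_isId hbr hI
    have hnd := RD.nd R hLB hbr hirr htr
    have P : Pr (Algebra.adjoin K ((I.map ρ : Submodule K _) :
        Set (Module.End K W))) (Algebra.adjoin K
          (((orth L I).map ρ : Submodule K _) : Set (Module.End K W))) := by
      constructor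
      · intro a ha b hb
        have h1 : Commute a b := by
          apply Algebra.commute_of_mem_adjoin_of_forall_mem_commute hb
          rintro _ ⟨y, hy, rfl⟩
          apply Commute.symm
          apply Algebra.commute_of_mem_adjoin_of_forall_mem_commute ha
          rintro _ ⟨x, hx, rfl⟩
          change ρ y * ρ x = ρ x * ρ y
          rw [← R.hom y (hLB (hO.1 hy)) x (hLB (hI.1 hx)),
            ← R.hom x (hLB (hI.1 hx)) y (hLB (hO.1 hy)),
            RD.orth_comm_of hbr hnd hI hx hy]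
        exact h1
      · intro U h1 h2
        apply hirr U
        intro x hx w hw
        obtain ⟨a, ha, hb⟩ := RD.sup_orth_of hnd hI hx
        have e : ρ x w = ρ a w + ρ (x - a) w := by
          rw [map_sub, LinearMap.sub_apply]; abel
        rw [e]
        exact U.add_mem (h1 _ (Algebra.subset_adjoin ⟨a, ha, rfl⟩) w hw)
          (h2 _ (Algebra.subset_adjoin ⟨_, hb, rfl⟩) w hw)
    have h1 : ρ x * ρ y = 0 := by
      rw [← R.hom x (hLB (hI.1 hx)) y (hLB (hO.1 hy)), hxy, map_zero]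
    rcases P.star (Algebra.subset_adjoin ⟨x, hx, rfl⟩) (Algebra.subset_adjoin ⟨y, hy, rfl⟩) h1
      with h | h
    · left; exact R.inj x (hLB (hI.1 hx)) h
    · right; exact R.inj y (hLB (hO.1 hy)) h

/-- Adaptation of `UStr.mem_of_normalize`. -/
theorem Rs.mem_of_normalize (R : Rs B ρ) (hLB : L ≤ B)
    (hbr : ∀ x ∈ L, ∀ y ∈ L, x * y - y * x ∈ L)
    (hirr : ∀ U : Submodule K W, (∀ x ∈ L, ∀ w ∈ U, ρ x w ∈ U) → U = ⊥ ∨ U = ⊤)
    (htr : ∀ x ∈ L, LinearMap.trace K V x = 0) {N : Module.End K V} (hN : N ∈ B)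
    (htrN : LinearMap.trace K V N = 0) (hnorm : ∀ x ∈ L, N * x - x * N ∈ L) : N ∈ L := by
  have hnd : ∀ x ∈ L, (∀ y ∈ L, LinearMap.trace K V (x * y) = 0) → x = 0 := by
    intro x hx h
    exact RD.nd R hLB hbr hirr htr L ⟨le_rfl, hbr⟩ x hx ⟨hx, h⟩
  let Φ : L →ₗ[K] Module.Dual K L :=
    { toFun := fun a =>
        { toFun := fun b => LinearMap.trace K V ((a : Module.End K V) * (b : Module.End K V))
          map_add' := by intro b c; simp [mul_add]
          map_smul' := by intro c b; simp }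
      map_add' := by intro a b; ext c; simp [add_mul]
      map_smul' := by intro c a; ext b; simp }
  have hinj : Function.Injective Φ := by
    rw [injective_iff_map_eq_zero]
    intro a ha
    apply Subtype.ext
    apply hnd _ a.2
    intro y hy
    exact congrArg (fun φ => φ ⟨y, hy⟩) ha
  have hfin : finrank K L = finrank K (Module.Dual K L) := Subspace.dual_finrank_eq.symm
  have hsurj : Function.Surjective Φ :=
    (LinearMap.injective_iff_surjective_of_finrank_eq_finrank hfin).mp hinj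
  let ψ : Module.Dual K L :=
    { toFun := fun b => LinearMap.trace K V (N * (b : Module.End K V))
      map_add' := by intro b c; simp [mul_add]
      map_smul' := by intro c b; simp }
  obtain ⟨n0, hn0⟩ := hsurj ψ
  set d := N - (n0 : Module.End K V) with hd
  have key : ∀ b ∈ L, LinearMap.trace K V (d * b) = 0 := by
    intro b hb
    have := congrArg (fun φ => φ ⟨b, hb⟩) hn0
    change LinearMap.trace K V ((n0 : Module.End K V) * b) = LinearMap.trace K V (N * b) at this
    rw [hd, sub_mul, map_sub, this, sub_self]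
  have hcomm : ∀ x ∈ L, d * x = x * d := by
    intro x hx
    have hc : d * x - x * d ∈ L := by
      have : d * x - x * d = (N * x - x * N) - ((n0 : Module.End K V) * x - x * n0) := by
        rw [hd]; noncomm_ring
      rw [this]
      exact L.sub_mem (hnorm x hx) (hbr _ n0.2 x hx)
    rw [← sub_eq_zero]
    apply hnd _ hc
    intro y hy
    have h1 := key _ (hbr x hx y hy)
    have e1 : LinearMap.trace K V (x * d * y) = LinearMap.trace K V (d * (y * x)) := by
      rw [mul_assoc, LinearMap.trace_mul_comm, mul_assoc]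
    rw [sub_mul, map_sub, e1, ← map_sub]
    rw [mul_sub, ← mul_assoc] at h1
    exact h1
  have hdB : d ∈ B := B.sub_mem hN (hLB n0.2)
  have hdt : LinearMap.trace K V d = 0 := by
    rw [hd, map_sub, htrN, htr _ n0.2, sub_self]
  have hd0 := RD.comm_zero R hLB hirr hdB hdt hcomm
  rw [hd, sub_eq_zero] at hd0
  rw [hd0]; exact n0.2

/-- The image is a simple Lie algebra if `L` is simple. -/
theorem Rs.simple (R : Rs B ρ) (hLB : L ≤ B) (hbr : ∀ x ∈ L, ∀ y ∈ L, x * y - y * x ∈ L)
    (hirr : ∀ U : Submodule K W, (∀ x ∈ L, ∀ w ∈ U, ρ x w ∈ U) → U = ⊥ ∨ U = ⊤)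
    (htr : ∀ x ∈ L, LinearMap.trace K V x = 0) (hs : Smp L) {x : Module.End K V} (hx : x ∈ L)
    (hx0 : x ≠ 0) (h' : ∀ x ∈ L.map ρ, ∀ y ∈ L.map ρ, x * y - y * x ∈ L.map ρ) :
    LieAlgebra.IsSimple K (toLie (L.map ρ) h') := by
  obtain ⟨y, hy, hxy⟩ : ∃ y ∈ L, x * y - y * x ≠ 0 := by
    by_contra hcon
    push Not at hcon
    exact hx0 (RD.comm_zero R hLB hirr (hLB hx) (htr x hx)
      fun y hy => sub_eq_zero.mp (hcon y hy))
  have hsm : Smp (L.map ρ) := by
    intro M hM hid
    let M' : Submodule K (Module.End K V) := L ⊓ M.comap ρ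
    rcases hs M' inf_le_left (by
      rintro x hx y ⟨hy1, hy2⟩
      refine ⟨hbr x hx y hy1, ?_⟩
      change ρ (x * y - y * x) ∈ M
      rw [map_sub, R.hom x (hLB hx) y (hLB hy1), R.hom y (hLB hy1) x (hLB hx)]
      exact hid _ ⟨x, hx, rfl⟩ _ hy2) with h | h
    · left
      rw [eq_bot_iff]
      intro y hy
      obtain ⟨x, hx, rfl⟩ := hM hy
      have h1 : x ∈ M' := ⟨hx, hy⟩
      rw [h, Submodule.mem_bot] at h1
      rw [Submodule.mem_bot, h1, map_zero]
    · right
      apply le_antisymm hM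
      rintro _ ⟨x, hx, rfl⟩
      have h1 : x ∈ M' := by rw [h]; exact hx
      exact h1.2
  refine toLie_simple h' hsm (x := ρ x) (y := ρ y) ⟨x, hx, rfl⟩ ⟨y, hy, rfl⟩ ?_
  rw [← R.hom x (hLB hx) y (hLB hy), ← R.hom y (hLB hy) x (hLB hx), ← map_sub]
  intro h
  exact hxy (R.inj _ (hLB (hbr x hx y hy)) h)

end RD

end AV
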